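import Pool.Agent.H37.CND.Stmts

/-!
# Row IRR: the depth of an automorphism of `p`-power order is prime to `p`
-/

set_option autoImplicit false

namespace Pool.CND

open Finset

/-- the linear map `g - 1` -/
noncomputable def irrD {k L : Type} [Field k] [Field L] [Algebra k L] (g : L ≃ₐ[k] L) :
    Module.End k L := (g.toLinearMap : Module.End k L) - 1

theorem irrD_apply {k L : Type} [Field k] [Field L] [Algebra k L] (g : L ≃ₐ[k] L) (x : L) :
    irrD g x = g x - x := rfl

theorem irr_lin_pow {k L : Type} [Field k] [Field L] [Algebra k L] (g : L ≃ₐ[k] L) (n : ℕ) :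
    (g.toLinearMap : Module.End k L) ^ n = (g ^ n).toLinearMap := by
  induction n with
  | zero => rfl
  | succ n ih =>
    rw [pow_succ, ih, pow_succ]
    rfl

theorem irr_thm (hLO2 : S_LO2) : S_IRR := by
  intro p k L _ _ _ P g u i r hp hch hfix hu hu1 hi hgu hgo hgr hdvd
  have key : ∀ j : ℕ, (irrD g ^ j) u ≠ 0 ∧ P.ord ((irrD g ^ j) u) = 1 + j * i := by
    intro j
    induction j with
    | zero => simpa using ⟨hu, hu1⟩
    | succ j ih =>
      obtain ⟨h0, h1⟩ := ih
      have hnd : ¬ (p : ℤ) ∣ P.ord ((irrD g ^ j) u) := by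
        rw [h1]
        intro h
        have h2 : (p : ℤ) ∣ 1 := (Int.dvd_add_left (Dvd.dvd.mul_left hdvd _)).mp h
        have h3 : p ∣ 1 := by exact_mod_cast h2
        exact hp.one_lt.ne' (Nat.dvd_one.mp h3)
      obtain ⟨h4, h5⟩ := (hLO2 p k L P g u i hp hch hfix hu hu1 hi hgu hgo _ h0).1 hnd
      have h6 : (irrD g ^ (j + 1)) u = g ((irrD g ^ j) u) - (irrD g ^ j) u := by
        rw [pow_succ']
        rfl
      rw [h6]
      refine ⟨sub_ne_zero.mpr h4, ?_⟩
      rw [h5, h1]
      push_cast
      ring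
  haveI : CharP (Module.End k L) p := by
    haveI := hch
    exact charP_of_injective_algebraMap (FaithfulSMul.algebraMap_injective k (Module.End k L)) p
  haveI : Fact p.Prime := ⟨hp⟩
  have h7 : irrD g ^ (p ^ r) = 0 := by
    unfold irrD
    rw [sub_pow_expChar_pow_of_commute (p := p) r (Commute.one_right _), one_pow, irr_lin_pow, hgr]
    exact sub_self _
  have h8 := (key (p ^ r)).1
  rw [h7] at h8
  exact h8 rfl

end Pool.CND
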